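import Mathlib

namespace Pool.Agent.H.MP_5e03f8_nt

def D : ℤ := 30657647930253435

def S : List (ℤ × ℤ) :=
  [(30146099122430340, 11095306265472397),
   (510960144039107, 11095159099526400),
   (15840353128996305, 15182987417785253),
   (14834914772048518, 15187392410483100),
   (19008911145, 11231713873159657),
   (15823303425539267, 15187544481772260),
   (14834364803465340, 15187549556460053),
   (569654872843, 11231871188481240),
   (15840372772973385, 15192106795442797),
   (15345894580527182, 15324261651254580),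
   (15329393619293985, 15328671718646513),
   (15328842974744278, 15328818884592720),
   (15328824599486265, 15328823795586997),
   (15328823986295582, 15328823959469100),
   (15328823965833105, 15328823964937913),
   (15328823965149478, 15328823965120200),
   (15328823965103145, 15328823965119997),
   (15328823964396782, 15328823964931620),
   (15328823943252225, 15328823959280513),
   (15328823309621878, 15328823789935680),
   (15328804321856025, 15328818715241797),
   (15328235322510782, 15328666643770140),
   (15311184329919345, 15324109574314313),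
   (14800223551521478, 15187549562111160)]

def Good (A B : ℤ) : Prop :=
  D ^ 2 ≤ |A * A - 14 * B * B| ∨ (2 ∣ A ∧ 4 * D ^ 2 ≤ 5 * |A * A - 14 * B * B|)

instance (A B : ℤ) : Decidable (Good A B) := by unfold Good; infer_instance

theorem D_pos : 0 < D := by decide

theorem closed : ∀ p ∈ S, ((15 * p.1 + 56 * p.2) % D, (4 * p.1 + 15 * p.2) % D) ∈ S ∧
    ((15 * p.1 - 56 * p.2) % D, (15 * p.2 - 4 * p.1) % D) ∈ S := by decide +kernel

theorem base : ∀ p ∈ S, ∀ i ∈ [(-4 : ℤ), -3, -2, -1, 0, 1, 2, 3], ∀ j ∈ [(-1 : ℤ), 0],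
    Good (p.1 + D * i) (p.2 + D * j) := by decide +kernel

theorem lin (a b x y : ℤ) : (a * (x % D) + b * (y % D)) % D = (a * x + b * y) % D :=
  ((Int.mod_modEq x D).mul_left a).add ((Int.mod_modEq y D).mul_left b)

theorem good (n : ℕ) : ∀ A B : ℤ, B.natAbs ≤ n → (A % D, B % D) ∈ S → Good A B := by
  induction n using Nat.strong_induction_on with
  | _ n ih =>
    intro A B hn hS
    have hD := D_pos
    by_cases h1 : D ^ 2 ≤ |A * A - 14 * B * B|
    · exact Or.inl h1
    rw [not_le, abs_lt] at h1
    by_cases h2 : |B| < D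
    · rw [abs_lt] at h2
      have hA : |A| < 4 * D := by
        apply abs_lt_of_sq_lt_sq _ (by omega)
        nlinarith [h1.2, h2.1, h2.2]
      rw [abs_lt] at hA
      have e1 := Int.emod_add_mul_ediv A D
      have e2 := Int.emod_add_mul_ediv B D
      have b1 := Int.emod_nonneg A hD.ne'
      have b2 := Int.emod_lt_of_pos A hD
      have b3 := Int.emod_nonneg B hD.ne'
      have b4 := Int.emod_lt_of_pos B hD
      have i1 : -5 < A / D := by
        by_contra c
        nlinarith
      have i2 : A / D < 4 := by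
        by_contra c
        nlinarith
      have j1 : -2 < B / D := by
        by_contra c
        nlinarith
      have j2 : B / D < 1 := by
        by_contra c
        nlinarith
      have := base _ hS (A / D) (by simp only [List.mem_cons, List.not_mem_nil]; omega) (B / D)
        (by simp only [List.mem_cons, List.not_mem_nil]; omega)
      simpa only [e1, e2] using this
    · rw [not_lt] at h2
      have hB : D ^ 2 ≤ B * B := by
        have := pow_le_pow_left₀ hD.le h2 2
        rwa [sq_abs, sq B] at this
      have l1 : 7 * |B| < 2 * |A| := by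
        apply lt_of_pow_lt_pow_left₀ 2 (by positivity)
        rw [mul_pow, mul_pow, sq_abs, sq_abs]
        nlinarith [h1.1, sq_nonneg D]
      have l2 : |A| < 4 * |B| := by
        apply lt_of_pow_lt_pow_left₀ 2 (by positivity)
        rw [mul_pow, sq_abs, sq_abs]
        nlinarith [h1.2, sq_nonneg D]
      have c := closed _ hS
      have key : ∀ A' B' : ℤ, B'.natAbs < B.natAbs → (A' % D, B' % D) ∈ S →
          A' * A' - 14 * B' * B' = A * A - 14 * B * B → (2 ∣ A' → 2 ∣ A) → Good A B := by
        intro A' B' hlt hS' hN h2'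
        rcases ih _ (lt_of_lt_of_le hlt hn) A' B' le_rfl hS' with h | h
        · exact Or.inl (hN ▸ h)
        · exact Or.inr ⟨h2' h.1, hN ▸ h.2⟩
      by_cases hs : (0 ≤ A ↔ 0 ≤ B)
      · refine key (15 * A - 56 * B) (15 * B - 4 * A) ?_ ?_ (by ring) (by omega)
        · rcases abs_cases A with a | a <;> rcases abs_cases B with b | b <;> omega
        · have := c.2
          have e1 := lin 15 (-56) A B
          have e2 := lin (-4) 15 A B
          simp only [neg_mul, ← sub_eq_add_neg, neg_add_eq_sub] at e1 e2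
          rwa [e1, e2] at this
      · refine key (15 * A + 56 * B) (4 * A + 15 * B) ?_ ?_ (by ring) (by omega)
        · rcases abs_cases A with a | a <;> rcases abs_cases B with b | b <;> omega
        · have := c.1
          rwa [lin, lin] at this

def pi : ℤ√14 := ⟨4, 1⟩

theorem span_eq : Ideal.span {(2 : ℤ√14), Zsqrtd.sqrtd} = Ideal.span {pi} := by
  apply le_antisymm
  · rw [Ideal.span_le]
    rintro x (rfl | rfl)
    · exact Ideal.mem_span_singleton.2 ⟨⟨4, -1⟩, by decide⟩
    · exact Ideal.mem_span_singleton.2 ⟨⟨-7, 2⟩, by decide⟩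
  · rw [Ideal.span_singleton_le_iff_mem, Ideal.mem_span_pair]
    exact ⟨2, 1, by decide⟩

theorem dvd_iff (n : ℕ) (a : ℤ√14) :
    Ideal.span {(2 : ℤ√14), Zsqrtd.sqrtd} ^ n ∣ Ideal.span {a} ↔ pi ^ n ∣ a := by
  rw [span_eq, Ideal.span_singleton_pow]
  constructor
  · intro h
    exact Ideal.mem_span_singleton.1 (Ideal.le_of_dvd h (Ideal.mem_span_singleton_self a))
  · rintro ⟨c, rfl⟩
    exact ⟨Ideal.span {c}, (Ideal.span_singleton_mul_span_singleton _ _).symm⟩

theorem pi_dvd (a : ℤ√14) : pi ∣ a ↔ 2 ∣ a.re := by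
  constructor
  · rintro ⟨c, rfl⟩
    simp only [pi, Zsqrtd.re_mul]
    omega
  · rintro ⟨k, hk⟩
    refine ⟨⟨4 * k - 7 * a.im, 2 * a.im - k⟩, ?_⟩
    ext
    · simp only [pi, Zsqrtd.re_mul]
      omega
    · simp only [pi, Zsqrtd.im_mul]
      omega

theorem norm_dvd (n : ℕ) (a : ℤ√14) (h : pi ^ n ∣ a) : 2 ^ n ∣ a.norm := by
  obtain ⟨c, rfl⟩ := h
  have : (pi ^ n).norm = 2 ^ n := by
    have := map_pow (Zsqrtd.normMonoidHom (d := 14)) pi n
    exact this
  rw [Zsqrtd.norm_mul, this]
  exact dvd_mul_right _ _

theorem fin (a : ℤ√14) (h : a.norm ≠ 0) :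
    FiniteMultiplicity (Ideal.span {(2 : ℤ√14), Zsqrtd.sqrtd}) (Ideal.span {a}) := by
  refine ⟨a.norm.natAbs, fun c => ?_⟩
  have h1 := Int.le_of_dvd (abs_pos.2 h) ((dvd_abs _ _).2 (norm_dvd _ _ ((dvd_iff _ _).1 c)))
  have h2 : a.norm.natAbs < 2 ^ (a.norm.natAbs + 1) :=
    Nat.lt_two_pow_self.trans (Nat.pow_lt_pow_right (by norm_num) (Nat.lt_succ_self _))
  rw [Int.abs_eq_natAbs] at h1
  exact absurd h1 (by exact_mod_cast not_le.2 h2)

end Pool.Agent.H.MP_5e03f8_nt
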